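import Pool.Agent.W355.FR.Stm

/-! Project FR: `P_UBL` (upper bound of the Faltings height from `P_ANA`). -/

set_option autoImplicit false

namespace Pool.Agent.W328.FR

open Pool.Agent.W355.FR UpperHalfPlane

theorem jE_eq (a b : ℤ) : jE a b = Rat.divInt (6912 * a ^ 3) (4 * a ^ 3 + 27 * b ^ 2) := by
  rw [Rat.divInt_eq_div]
  simp only [jE]
  push_cast
  rfl

theorem den_le (a b : ℤ) (h : 4 * a ^ 3 + 27 * b ^ 2 ≠ 0) :
    ((jE a b).den : ℝ) ≤ |4 * (a : ℝ) ^ 3 + 27 * (b : ℝ) ^ 2| := by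
  have h1 : ((jE a b).den : ℤ) ∣ 4 * a ^ 3 + 27 * b ^ 2 := by
    rw [jE_eq]; exact Rat.den_dvd _ _
  have h2 : ((jE a b).den : ℤ) ≤ |4 * a ^ 3 + 27 * b ^ 2| :=
    Int.le_of_dvd (abs_pos.2 h) ((dvd_abs _ _).2 h1)
  have h3 : (((jE a b).den : ℤ) : ℝ) ≤ ((|4 * a ^ 3 + 27 * b ^ 2| : ℤ) : ℝ) := by
    exact_mod_cast h2
  push_cast at h3
  exact h3

theorem num_le (a b : ℤ) (h : 4 * a ^ 3 + 27 * b ^ 2 ≠ 0) :
    |((jE a b).num : ℝ)| ≤ 6912 * |(a : ℝ)| ^ 3 := by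
  by_cases ha : a = 0
  · subst ha
    simp [jE]
  · have h1 : (jE a b).num ∣ 6912 * a ^ 3 := by
      rw [jE_eq]; exact Rat.num_dvd _ h
    have h0 : (6912 * a ^ 3 : ℤ) ≠ 0 := by positivity
    have h2 : |(jE a b).num| ≤ |6912 * a ^ 3| :=
      Int.le_of_dvd (abs_pos.2 h0) ((abs_dvd_abs _ _).2 h1)
    have h3 : ((|(jE a b).num| : ℤ) : ℝ) ≤ ((|6912 * a ^ 3| : ℤ) : ℝ) := by
      exact_mod_cast h2
    push_cast at h3
    rw [abs_mul, abs_pow] at h3
    have h4 : |(6912 : ℝ)| = 6912 := abs_of_pos (by norm_num)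
    rw [h4] at h3
    exact h3

theorem ubl : P_UBL := by
  rintro ⟨c, hc, hana⟩
  refine ⟨- Real.log c / 12, fun a b hD τ hj => ?_⟩
  have hΔ : 0 < ‖ModularForm.discriminant τ‖ := norm_pos_iff.2 (ModularForm.discriminant_ne_zero τ)
  have hy : 0 < τ.im ^ 6 := pow_pos τ.im_pos 6
  set d := ‖ModularForm.discriminant τ‖ with hd
  set y := τ.im ^ 6 with hyd
  set j : ℚ := jE a b with hjd
  have hE : ‖ModularForm.E₄ τ‖ ^ 3 = |(j : ℝ)| * d := by
    rw [← norm_pow, hj, norm_mul]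
    congr 1
    simp
  have hmax : max d (‖ModularForm.E₄ τ‖ ^ 3) = d * max 1 |(j : ℝ)| := by
    rw [hE, mul_max_of_nonneg _ _ hΔ.le, mul_one, mul_comm]
  have h1 : c ≤ d * max 1 |(j : ℝ)| * y := by
    have := hana τ
    rw [← hd, hmax] at this
    exact this
  have hm1 : (0 : ℝ) < max 1 |(j : ℝ)| := lt_of_lt_of_le one_pos (le_max_left _ _)
  have h2 : Real.log c ≤ Real.log (d * y) + Real.log (max 1 |(j : ℝ)|) := by
    rw [← Real.log_mul (by positivity) hm1.ne']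
    apply Real.log_le_log hc
    calc c ≤ d * max 1 |(j : ℝ)| * y := h1
      _ = _ := by ring
  have hden : (0 : ℝ) < j.den := by exact_mod_cast j.den_pos
  have h3 : (j.den : ℝ) * max 1 |(j : ℝ)| ≤
      max (6912 * |(a : ℝ)| ^ 3) |4 * (a : ℝ) ^ 3 + 27 * (b : ℝ) ^ 2| := by
    rw [mul_max_of_nonneg _ _ hden.le, mul_one]
    apply max_le
    · exact le_max_of_le_right (den_le a b hD)
    · apply le_max_of_le_left
      have e : (j.den : ℝ) * |(j : ℝ)| = |(j.num : ℝ)| := by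
        rw [← abs_of_pos hden, ← abs_mul]
        congr 1
        exact_mod_cast Rat.den_mul_eq_num j
      rw [e]
      exact num_le a b hD
  have h4 : Real.log j.den + Real.log (max 1 |(j : ℝ)|) ≤
      Real.log (max (6912 * |(a : ℝ)| ^ 3) |4 * (a : ℝ) ^ 3 + 27 * (b : ℝ) ^ 2|) := by
    rw [← Real.log_mul hden.ne' hm1.ne']
    exact Real.log_le_log (by positivity) h3
  have h5 : 0 ≤ Real.log (2 * Real.pi) := by
    apply Real.log_nonneg
    nlinarith [Real.pi_gt_three]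
  unfold hF
  linarith

end Pool.Agent.W328.FR
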